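import Mathlib
import Pool.Agent.H298.Core.MultiTimes
import Pool.Agent.H298.Core.DoubleTypeMain

/-!
# The noncommutative variational Hodge conjecture for the products of all linear admissible
subcategories with abelian varieties of CM type whose fields have core number one or a primitive
core

**In short.** Let `E` be a CM field of degree `2 g`, `E₀` its maximal real subfield and `2 ^ v`, `1
≤ v ≤ g`, the degree of the Galois closure of `E` over the Galois closure of `E₀` (typically `v =
g`). The theorem is for the following CM types of `E` (`AllTypeCriteria`), among others: **(a) all
types of simple abelian varieties if `v > g / 4`, or if `g` is the product of two prime numbers and
`v > 1`, or if `E` has few divisors in the sense of `FewDivisors` (a condition on `g`, `v` and the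
discriminants), and if `v > g / 2` also all families of types with linearly independent sign
functions; (b) if `v > g / 6`, all types of simple abelian varieties which are not balanced over a
subfield of index `4`; (c) if the Galois group of `E₀` is doubly transitive and `g`
is odd, or `g - 1` is a prime number, or at least `g` is none of the numbers `10, 16, 26, 28, 36, …`
(`TwoGraphDegree`), or if it is triply transitive, for example the symmetric group, or the
alternating group if `g ≥ 5`, and `g ≥ 3`, all types of simple abelian varieties
which are not balanced over an imaginary quadratic subfield (which are not of Weil type).** In all
these cases the condition is necessary and sufficient. The general hypothesis (`CoreTypes`) is
explained below.

**Cores.** Let `X` be the set of the complex embeddings of the CM field `E`, `[E : ℚ] = 2 g`. The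
automorphisms of `ℂ` which map all elements of `X` to themselves or to their complex conjugates are
called sign changes. The first core of `φ : X` consists of the `ψ : X` which are moved by the same
sign changes as `φ`. If one uses all automorphisms which map the elements of the first core to
themselves or to their conjugates, one obtains the second core, inside of the first one, and so on
(`coreOf`). The cores of the same index have the same number `2 c` of elements, `c` divides `g`, and
the smallest such number `c` is the core number of `E`. It satisfies `c ≤ g / v`, and if a prime
number `q` divides the discriminant of `E`, but not the discriminant of the maximal real subfield,
then `q ^ c` divides the discriminant of `E`. `FewDivisors` says that all divisors of `g` which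
satisfy these conditions are one or prime.

**The CM types.** Let `E i` (`i` in a finite set) be CM fields, pairwise independent: for `i ≠ k`
and all complex embeddings `φ` of `E i` and `ψ` of `E k` some automorphism of `ℂ` is the identity on
`φ (E i)` and the complex conjugation on `ψ (E k)` (this is no condition if there is only one
field). Let `Φ i k` be finitely many CM types of each of the fields `E i`. The sign function of a
type is `1` on the type and `-1` on the other embeddings. Suppose that for each `E = E i` one of the
following conditions holds (`CoreTypes`).

* The core number of `E` is one, and the sign functions of the types `Φ i k` are linearly
  independent (`IndependentSigns`). This condition is necessary and sufficient for the joint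
  nondegeneracy of the types; it is satisfied by **any three** types which are pairwise different
  and not complex conjugate (that is, for any three nonisogenous abelian varieties with complex
  multiplication by `E`).
* There is a core with `c` pairs of embeddings, `c = [E : F]` for a subfield `F`, not totally real,
  such that the automorphisms of `ℂ` act doubly transitively on the extensions to `E` of an
  embedding of `F`. The sums of the sign functions over the extensions of the embeddings of `F` are
  linearly independent, and no nontrivial linear combination of the sign functions comes from `F`
  (`IndependentOver`; again necessary and sufficient).
* There is only one type `Φ`, and it is as follows (`CoreType`). The rational functions on the
  embeddings which change their sign under complex conjugation are an irreducible representation of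
  the automorphisms of `ℂ` (`OddIrreducible`). Or the abelian varieties of type `Φ` are simple (`Φ`
  is not induced from a proper subfield), there is a core with `c` pairs, where `c` is a prime
  number, or `c = 4`, or `c = [E : F]` as above, and (this is automatic if `c = 2` or if `c` is odd)
  there is no subfield `F`, not totally real, with `[E : F] = c` such that one half of the
  extensions of each embedding of `F` belong to `Φ` (`Balanced`). These conditions are necessary and
  sufficient. Or there is a core with a power `q` of a prime number `ℓ` of pairs, and for an orbit
  of `q` embeddings in it, of a group of automorphisms, the sum of the signs is prime to `ℓ`
  (`OddPrimePowerCore`, `TwoPowerCore`).

Let `A` be any product of copies of the abelian varieties of CM type `(E i, Φ i k)`, and let `C` be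
**any** `S`-linear admissible subcategory of `D_perf (X)`, for any smooth proper morphism `X → S`,
which is unrelated to the fields `E i` (see below). Let `perf (A) ⊠ C` be the `S`-linear admissible
subcategory of `D_perf (A × X)` given by `C`. **Every flat class of `perf (A) ⊠ C` which is a Hodge
class for all `b` is a sum of products `f ⊗ x` of a combination `f` of products of divisor classes
on `A` and a flat class `x` of `C` which is a Hodge class for all `b`; the noncommutative
variational Hodge conjecture for `perf (A) ⊠ C` is equivalent to the noncommutative variational
Hodge conjecture for `C`; and it then holds for all `S`-linear admissible subcategories of `perf (A)
⊠ C`** (`NCVariationalForTypes`).

The condition on `C` (`UnrelatedFamily`). Let `w ≠ 0` be a flat vector in `K_0^top (C_b) ⊗ ℂ` or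
`K_1^top (C_b) ⊗ ℂ` such that for each automorphism `σ` of `ℂ` the conjugate `σ w` is of pure type
for **all** `b`: a sum of classes of types `(p, q)` with `p - q = d σ`, where `d σ` does not depend
on `b`. The condition is that for all such `w` a function `n` on the complex embeddings of `E i`
with `n (conj φ) = - n φ` which is invariant under all automorphisms `τ` of `ℂ` with `d (σ τ) = d σ`
for all `σ` is zero. The vectors `w` span a constant sub-Hodge structure with complex
multiplication, and the condition is void for the vectors with `d = 0`. So the condition is void if
the variation of Hodge structure `K^top (C / S)` has no constant sub-Hodge structures with complex
multiplication, other than those with `p = q`; it is true if the compositum of the fields of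
multiplication of these is linearly disjoint from the normal closures of the `E i`; and it is true
if one fibre `C_b` is unrelated to the fields `E i`, for instance if the ranks of `K_0^top` and
`K_1^top` are less than `2 * dim S` for all nonzero spaces `S` of functions `n` with `n (conj φ) = -
n φ` that are stable under the automorphisms of `ℂ`.

Nothing is known about the conjecture for `C` in general, and nothing is assumed, also not on the
base or the monodromy.

The Hodge structures of `K^top (C_b) ⊗ ℚ`, the sum of `K_0^top` (of weight zero) and `K_1^top` (of
weight one), are given by `C b : Coh v`, a rational space (the local system, trivialized over `B`,
the base or a covering of the base) with a basis of homogeneous elements and the Hodge operators `(C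
b).z`, which are the multiplication by `p - q`; by the Künneth formula those of `perf (A_b) ⊠ C_b`
are `HAZ W v`, the forms on the homology `W` of `A_b` with values in `ℚ ^ v`. The spans of the
classes of objects are given by `ObjectSystem`; the three properties used are that the exterior
product of a vector bundle on `A_b` and an object of `C_b` is an object of `perf (A_b) ⊠ C_b`, that
the direct image along `A_b` of the tensor product of an object with a vector bundle on `A_b` is an
object of `C_b` (by the theorem of Riemann and Roch its class is an integral over `A_b`), and that
its objects can be restricted to the point zero of `A_b`. A class which is algebraic for one `b` is
a Hodge class for all `b` (known, see the problem file).

Part two (`AllTypeCriteria`) contains the statement that these conditions are also necessary: the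
degenerate CM types of the fields with a core with `c` pairs, primitive or with `c = 4`, are the
types which are induced from a proper subfield or balanced over a subfield of index `c`; the exact
lists of the degenerate types in the cases (a), (b) and (c) above; the jointly nondegenerate
families of types of the fields with core number one, or with a doubly transitive core; the
criterion for three types; the facts about the cores (`CoreFacts`); and a criterion for the
independence of the fields: any two of them are separated by a prime number, which divides the
discriminant of one of them, but not the one of its maximal real subfield, and not the one of the
other field.

**What was known.** The abelian varieties of CM type of prime dimension are due to Tankeev and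
Ribet; Dodson studied the CM fields by their sign changes. In the library the theorem is proved for
almost all CM types of each field (one type for each field). New here are explicit classes of CM
fields of all degrees, for which **all** types are treated, with conditions which are necessary and
sufficient, and the families with several types for the same field.

**The proof.** One has to show that the sign functions of the types of `E` and their translates
satisfy no antisymmetric linear relation. The relations of several types are a space of functions on
several copies of the set of embeddings, stable under the automorphisms of `ℂ`. By the sign changes
one can cut down a relation; this gives, by induction on the size of the support and on the index of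
the core, a relation which is supported in the copies of one core. If the core consists of one pair
this is a linear relation between the sign functions. In the doubly transitive case the extensions
of an embedding of `F` are one half of the core, and the averages over the stabilizer of this half
and over the stabilizer of a point give the two conditions. For one type and a core of `2 p`
elements, `p` a prime number, a Sylow subgroup for `p` contains a `p`-cycle on one half of the core,
and the irreducibility of the cyclotomic polynomial shows that the signs come from a subfield or
that their sums over an orbit vanish. For a core of `8` elements: a relation which vanishes at one
element of the core has at most three positive values, and three signs with positive coefficients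
cannot cancel unless two of the signs are always equal or always opposite; so the signs are induced,
or all relations in the core are proportional to each other, have constant absolute value, and are
the difference of two blocks. For the cases (a), (b) and (c) one uses that a sign change is
determined by the first cores which it moves, so that `2 ^ v ≤ 2 ^ (g / c)`, and that for a triply transitive group either the odd
functions are irreducible or the signs are given by a character of the group, so that `E` contains
an imaginary quadratic field. If the group is doubly transitive, let `V` be a space of odd functions
which is stable under the automorphisms, neither zero nor everything. The values of its reproducing
kernel at two embeddings in different pairs are `β` or `-β`, and `β ≠ 0`; the signs form a regular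
two-graph on the `g` pairs, with the eigenvalues `r` on `V` and `-s` on the orthogonal space,
`r s = g - 1`, `(r + s) dim V = g s`. If `g` is odd then `r` or `s` is even, and a descent modulo two
shows that the nonzero functions in one of the two spaces have no zeros; by the maximum principle
this is also true if `r` or `s` is `1` or `-1`. So this space has dimension one, and the signs of its
functions give an imaginary quadratic subfield. Over the complex numbers a flat class
`F` of `perf (A) ⊠ C` is a sum of products of monomials of eigenforms on `A` and flat vectors `w`.
If `F` is a Hodge class for all `b` then all conjugates of `w` are of pure type for all `b`, and the
types are determined by the monomial and the CM types. So the exponents of the monomial are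
invariant under the automorphisms which do not change the types of `w`, and are balanced, as `C` is
unrelated. To find the components of `F` by algebraic operations a perfect pairing is needed: for a
balanced form `f ≠ 0` on `A` there is a balanced form `β` of complementary degree with `∫ f ∧ β ≠
0`.
-/

set_option autoImplicit false

namespace Pool.Agent.Results.MP_298761_ag.SmallCoreFields

open NumberField Module Pool.Agent.H204R3.CM Pool.Agent.H977R3.CM Pool.Agent.H298.Core
  Pool.Agent.Q64.HC

/-- **The noncommutative variational Hodge conjecture for `perf (A) ⊠ C` is equivalent to the one for
`C`, for the products `A` of abelian varieties of CM type whose fields have core number one or a
primitive core, with several types for each field, and all unrelated linear admissible subcategories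
`C`.** -/
theorem result :
    (∀ (ι : Type) [Fintype ι] (E : ι → Type) [∀ i, Field (E i)] [∀ i, NumberField (E i)]
      [∀ i, IsCMField (E i)], PairwiseIndep E → ∀ (κ : ι → Type) [∀ i, Fintype (κ i)]
      (Φ : ∀ i, κ i → Set (E i →+* ℂ)), (∀ i, CoreTypes (Φ i)) →
      NCVariationalForTypes (E := fun x : Σ i, κ i => E x.1) fun x => Φ x.1 x.2) ∧
    AllTypeCriteria :=
  ⟨fun _ _ _ _ _ _ hE _ _ _ h => ncVariational_types hE h, allTypeCriteria_hold⟩

end Pool.Agent.Results.MP_298761_ag.SmallCoreFields
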