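import Mathlib
import Pool.Agent.H855.HG.Vectors
import Pool.Agent.H855.HG.Cat

/-!
# The noncommutative variational Hodge conjecture for the exterior products of **every** linear admissible
subcategory with the admissible subcategories of CM type: finitely many exceptional vectors

Let `K i` (`i` in any set `I`) be CM fields, for instance **all** CM fields. A function `v` on the
complex embeddings of a field is odd if `v (conj φ) = - v φ`. A CM type `Φ` of `K i` is the same
thing as the odd function `x` with the value `1` on `Φ` and `- 1` on the conjugate embeddings. Let
`w i / 2` be a lower bound for the dimensions of the nonzero spaces of odd rational functions on the
embeddings of `K i` which are stable under the automorphisms of `ℂ`: `w i = 2` is always possible,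
and `w i = [K i : ℚ]` if the space of all odd functions is irreducible (`IsWeight`).

Let `f : 𝒴 → S` be a smooth proper morphism and `𝒞` an `S`-linear admissible subcategory of the
category of perfect complexes on `𝒴`. Let `N` be the space of the global sections of the local
systems `K_m^top(𝒞/S) ⊗ ℚ`, `m = 0, 1`. By the theorem of the fixed part it has a Hodge structure,
which does not depend on the point `s` of `S`. Below `N` is called the fixed part of `𝒞/S`, and it
plays the role of the cohomology of `Y`; the variety `X` is replaced by an admissible subcategory
`𝒟` of the category of perfect complexes on a smooth proper complex variety, for instance
`D_perf(X)`, with its topological K-theory, and `X × Y` by the `S`-linear exterior product `𝒟 ⊠ 𝒞`.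

**Types.** Let `Y` be a smooth projective complex variety. The Hodge operator on its cohomology is
the multiplication by `p - q` on `H^(p, q)` (`HodgeSpace`). A vector `w` of `H(Y, ℂ)` has the types
`d` if for each automorphism `σ` of the field `ℂ` the conjugate `σ w` (the conjugate of the
coordinates in a rational basis) is a sum of classes of types `(p, q)` with `p - q = d σ`
(`HasTypes`). These vectors generate the part of CM type of the cohomology (`cmPart`). The types of
a rational Hodge class are `d = 0`.

**The varieties `X`.** Let `x j` be integral odd functions on the complex embeddings of fields `L
j`, each one of the `K i`, `j` in a finite set. Let `X` be a smooth projective complex variety of CM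
type, that is with a commutative Mumford-Tate group; this means that `H(X, ℂ)` is generated by
vectors with types (`IsOfCMType`). We suppose that for all vectors with types `d` a multiple of `d`
is a sum `σ ↦ ∑ m (j, ψ) * x j (σ ψ)` over the embeddings `ψ` of the fields `L j` (`IsGeneratedBy`).
For instance `X` can be **any** abelian variety isogenous to a product of powers of the abelian
varieties of CM types `(L j, Φ j)`, or a variety whose cohomology is built from the cohomology of
such abelian varieties, like the Fermat hypersurfaces, or K3 surfaces with complex multiplication.
**Every** `X` of CM type is obtained in this way from suitable CM fields. The Hodge classes on `X`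
can be exotic (not polynomials in divisor classes).

**The theorem.** For every `Y` there is a finite set `E` of pairs `(i, v)`, where `v` is an odd
function, not zero, on the complex embeddings of `K i`, which depends only on the Hodge structure of
the fixed part of `𝒞/S` and the fields `K i`, with the following properties (`IsSmallFor`).

* The vectors `v` come from the types of the fixed part of `𝒞/S`: the functions `σ ↦ v (σ φ)` are
  linear combinations of the translates of the types `d` of one vector.
* `∑ w i + h ≤ c`, the sum over the elements `(i, v)` of `E`, where `h` is the dimension of the
  space of the Hodge classes, and `c` is the dimension of the part of CM type, of the fixed part of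
  `𝒞/S`. So `E` has at most `(b - h) / 2` elements, where `b` is the dimension of the fixed part of
  `𝒞/S` (the dimension of the space of global sections), and `E` is **empty** if the part of CM type
  of the fixed part of `𝒞/S` consists of Hodge classes, or if `w i > b - h` for all `i`.
* For all families `x j` such that no vector `v` of `E` is a combination of the `x j`, and for
  **all** `X` as above, the following is true for the categories `𝒟` with this Hodge structure.
  1. The global sections for `𝒟 ⊠ 𝒞` whose values are Hodge classes are the sums of exterior
     products of Hodge classes of `𝒟` and global sections for `𝒞` whose values are Hodge classes
     (`IsHodgeOfProducts`).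
  2. Let the noncommutative Hodge conjecture be true for `𝒟`. Then for each point `s` of `S` the
     global sections for `𝒟 ⊠ 𝒞` which are algebraic at `s` are **exactly** the sums of exterior
     products of Hodge classes of `𝒟` and global sections for `𝒞` which are algebraic at `s`.
  3. If moreover there are nonzero Hodge classes of `𝒟` then for **any two points** `s`, `s'`: all
     global sections for `𝒟 ⊠ 𝒞` which are algebraic at `s` are algebraic at `s'` if and only if
     this is true for `𝒞`. Hence **the noncommutative variational Hodge conjecture is true for `𝒟 ⊠
     𝒞` if and only if it is true for `𝒞`** (`NCVariationalOnProducts`).

A vector `v` on the embeddings of a field `K` is a combination of the `x j` (`IsComb`) if it is the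
sum of the images of the `x j` under equivariant maps: `v φ = ∑ t φ (j, ψ) * x j ψ` with rational
numbers `t φ (j, ψ)` which are invariant under the automorphisms of `ℂ`, odd in `ψ`, and zero if the
fields `K` and `L j` are unrelated (there are no nonzero equivariant maps between their odd
functions). So if the fields of the elements of `E` are unrelated to the `L j` the condition is
satisfied; and if the odd functions on the embeddings of `K i` are absolutely irreducible an element
`(i, v)` excludes at most one CM type `Φ` of `K i` and its conjugate, for the varieties `X`
generated by one CM type of `K i`. (Exceptions are necessary: `X` and `Y` can have common simple
factors of their cohomology, and then there are Hodge classes on `X × Y` which are not sums of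
products.)

For instance `𝒟` can be `D_perf(X)` for an abelian variety `X` of CM type for which the Hodge
conjecture is true, or an admissible subcategory of it, and `𝒞` is arbitrary.

The results `AllCMTypesTimesCategory` (library) and `SmallCoreFields` of this run are about the
categories of perfect complexes on products of copies of the abelian varieties of almost all CM
types, respectively of nondegenerate CM types of special fields, and families of categories
unrelated to the fields. Here `𝒟` and `𝒞` are arbitrary, `𝒟` of CM type, and there is no condition
besides the one that finitely many vectors are not combinations.

The framework (`CategoryFamilyTimes`): the image of `K_0(𝒟)`, the global sections which are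
algebraic at the point `s` for `𝒞` and `𝒟 ⊠ 𝒞`, which are Hodge classes, the exterior products of
objects, and the functors `RHom(D, -) : 𝒟 ⊠ 𝒞_s → 𝒞_s` for the objects `D` of `𝒟`, which operate by
the contraction with the Euler form (`contract`). The Euler form is nondegenerate on the Hodge
classes of `𝒟` (this is a theorem, since it is nondegenerate on the topological K-theory, a
polarizable Hodge structure, and a morphism of Hodge structures).

The proof. The spaces of the vectors with given types `d`, for different `d`, are linearly
independent, since they are common eigenspaces of the operators `σ⁻¹ z σ`, where `z` is the Hodge
operator; so there are only finitely many `d` for `Y`, at most `c - h` nonzero ones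
(`typeSpace_indep`, `card_types`). Take a basis `e k` of `H(X, ℂ)` of vectors with types `d k`, and
write a Hodge class on `X × Y` as `∑ e k ⊗ y k`. Since it is rational its conjugates are the same
class `∑ σ (e k) ⊗ σ (y k)`, so that the `y k` have the types `- d k` (`kunneth`). Some multiple of
`d k` is a sum of values `x j (σ ψ)`; since the functions `x j` are odd, `- d k` is the value of an
odd relation with rational coefficients. For each `d` up to translation which is such a value for
some family, there is one vector `v` (`exists_vector`) whose translates are combinations of the
translates of `d`; and if another family has `d` as a value of a relation then `v` is a combination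
of that family (`isComb_of`: one projects orthogonally to the space of the trivial relations). So
outside of the exceptional vectors `d k = 0` or `y k = 0` for all `k`. Then the class is killed by
the Hodge operators of both factors, and it is a sum of products of Hodge classes. The estimate: the
translates of `d` generate a space of dimension at least `w i / 2`, and they come in pairs `d`, `-
d` (`two_finrank_le`).
-/

set_option autoImplicit false

namespace Pool.Agent.Results.MP_298761_ag.TimesCMVarieties

open NumberField Pool.Agent.H855.CM Pool.Agent.H855.HG

/-- **For every `S`-linear admissible subcategory `𝒞` with the fixed part `N`: flat Hodge classes of `𝒟 ⊠ 𝒞`
are sums of exterior products, and the noncommutative variational Hodge conjecture is true for `𝒟 ⊠ 𝒞` if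
and only if it is true for `𝒞`, for all admissible subcategories `𝒟` of CM type, with topological K-theory
`X`, which satisfy the noncommutative Hodge conjecture, outside of finitely many exceptional vectors.** -/
theorem result {I : Type} (K : I → Type) [∀ i, Field (K i)] [∀ i, NumberField (K i)]
    [∀ i, IsCMField (K i)] (w : I → ℕ) (hw : ∀ i, IsWeight (K i) (w i)) (B : Type) [Fintype B]
    (N : HodgeSpace B) :
    ∃ E : Finset (Σ i, ((K i →+* ℂ) → ℝ)), IsSmallFor w N E ∧
      ForAllOfCMType K E (fun _ _ X => IsHodgeOfProducts X N ∧ NCVariationalOnProducts X N) := by
  obtain ⟨E, hE, h⟩ := exists_vectors K w hw N
  exact ⟨E, hE, h _ fun _ _ X hX => ⟨hX, ncVariationalOnProducts hX⟩⟩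

end Pool.Agent.Results.MP_298761_ag.TimesCMVarieties
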